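import Pool.Agent.Q274.BJ.Rank
import Pool.Agent.Q44.JQ.M.Out

/-!
# The joint law for the Bloch–Kato Selmer groups of the quadratic twists of hyperelliptic Jacobians
-/

set_option autoImplicit false
set_option linter.unusedSectionVars false

open scoped Classical Topology

namespace Q274.JB

open Finset Filter
open Pool.Agent.TH344.JG (LocJ SelJ PR df)
open Pool.Agent.Y723.PT (tw DA)
open Pool.Agent.Y723.SJ (QuotQ)
open Q44.JQ (mulS lawc)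
open Q44.JQ.W Q44.JQ.M
open Q274.BJ (H1f lat LModTwo)

/-- The dimension of `H¹_f(ℚ, V_2 J)` is at most `e`: the group `L / 2 L` has at most `2 ^ e` elements, `L` the
lattice of the classes of the cocycles with values in `T_2 J`. For `e = 0`, `H¹_f(ℚ, V_2 J) = 0` and `J(ℚ) / 2 ^ m`
has `2 ^ (2 g)` elements for all `m ≥ 1`. -/
def RankLe {g : ℕ} (a : Fin (2 * g + 1) → ℤ) (e : ℕ) : Prop :=
  (Finite (LModTwo a) ∧ Nat.card (LModTwo a) ≤ 2 ^ e) ∧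
    (e = 0 → (∀ x : H1f a 2, x = 0) ∧ ∀ m : ℕ, 1 ≤ m → Nat.card (QuotQ a (2 ^ m)) = 2 ^ (2 * g))

theorem rk_of {g : ℕ} (hg : 1 ≤ g) {a : Fin (2 * g + 1) → ℤ} (ha : Function.Injective a)
    {D : ℤ} (hD : Squarefree D) {q : ℕ} (hq : q.Prime) (hqD : (q : ℤ) ∣ D)
    (hqa : ¬ q ∣ DA a) {e : ℕ} (hfin : (SelJ (tw D a)).Finite)
    (hcard : (SelJ (tw D a)).ncard ≤ 2 ^ (2 * g + e)) : RankLe (tw D a) e := by
  obtain ⟨w, hw⟩ := hqD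
  have hw0 : w ≠ 0 := by
    rintro rfl
    rw [mul_zero] at hw
    exact hD.ne_zero hw
  have hqw : ¬ (q : ℤ) ∣ w := by
    rintro ⟨v, hv⟩
    have h1 : (q : ℤ) * q ∣ D := ⟨v, by rw [hw, hv]; ring⟩
    have h7 := hD _ h1
    rw [Int.isUnit_iff] at h7
    have := hq.one_lt
    omega
  have e1 : tw D a = tw q (tw w a) := by
    funext i
    show D * a i = q * (w * a i)
    rw [hw]
    ring
  have hinj : Function.Injective (tw w a) := Pool.Agent.Y723.PT.tw_inj hw0 ha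
  have hnd : ¬ q ∣ DA (tw w a) := by
    unfold DA at hqa ⊢
    intro h
    obtain ⟨c, -, hc⟩ := hq.prime.exists_mem_finset_dvd h
    have h2 : df (tw w a) c = w * df a c := by
      unfold df tw
      ring
    rw [h2, Int.natAbs_mul] at hc
    rcases (Nat.Prime.dvd_mul hq).1 hc with h3 | h3
    · exact hqw (Int.natCast_dvd.2 h3)
    · exact hqa (h3.trans (Finset.dvd_prod_of_mem _ (mem_univ c)))
  rw [e1] at hfin hcard ⊢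
  refine ⟨Q274.BJ.lat_of hg hinj hq hnd hfin hcard, fun he => ?_⟩
  subst he
  rw [add_zero] at hcard
  exact ⟨Q274.BJ.h1f_of hg hinj hq hnd hfin hcard,
    fun m hm => (Pool.Agent.Y723.PT.triv_of hg hinj hq hnd hfin hcard m hm).1⟩

variable {κ μ : Type} [Fintype κ] [Fintype μ] (E : Ex κ) {m : μ → ℕ} (S : Finset ℕ)

theorem rk_ex {D : ℤ} (hD : Squarefree D) {k : κ} (hn : ∃ q : ℕ, q.Prime ∧ (q : ℤ) ∣ D ∧
    ¬ (q : ℤ) ∣ E.DD) {e : ℕ} (hfin : (SelJ (tw D (E.a k))).Finite)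
    (hcard : (SelJ (tw D (E.a k))).ncard ≤ 2 ^ (2 * E.g k + e)) : RankLe (tw D (E.a k)) e := by
  obtain ⟨q, hq, hqD, hqE⟩ := hn
  refine rk_of (E.hg k) (E.ha k) hD hq hqD ?_ hfin hcard
  intro h
  unfold DA at h
  obtain ⟨c, -, hc⟩ := hq.prime.exists_mem_finset_dvd h
  exact hqE ((Int.natCast_dvd.2 hc).trans (E.dvd_DD k c))

/-- the bounds for all multipliers -/
def RankM (m : μ → ℕ) (D : ℤ) (e : κ → μ → ℕ) : Prop :=
  ∀ k i, ∀ D' t : ℤ, Squarefree D' → D * m i = D' * t ^ 2 → RankLe (tw D' (E.a k)) (e k i)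

/-- **the theorem for all sets of vectors** -/
theorem allR (H : FactsM) (hm : Mult E m) (hS : ∀ k, E.p k ∉ S) (D₀ : ℤ) (hD₀ : Squarefree D₀)
    (hp₀ : ∀ k, ¬ (E.p k : ℤ) ∣ D₀) (C : ℤ → Prop) (hC : ∀ D, C D ↔ Squarefree D ∧ E.Cond S D₀ D)
    (𝒜 : Set (κ → μ → ℕ)) (G : ℤ → Prop) (hG : ∀ D, G D ↔ ∃ e ∈ 𝒜, RankM E m D e) :
    (∃ c : ℝ, 0 < c ∧
      Tendsto (fun X : ℕ => (((Icc (-(X : ℤ)) X).filter fun D => C D).card : ℝ) / X) atTop (𝓝 c)) ∧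
    ∀ ε : ℝ, 0 < ε → ∀ᶠ X : ℕ in atTop,
      ((∑' e : κ → μ → ℕ, if e ∈ 𝒜 then lawV e else 0) - ε) *
        (((Icc (-(X : ℤ)) X).filter fun D => C D).card : ℝ) ≤
        (((Icc (-(X : ℤ)) X).filter fun D => C D ∧ G D).card : ℝ) := by
  obtain ⟨dd, h1, h2⟩ := jointM E S H hm hS
  obtain ⟨c, hc, h3, h4⟩ := h2 D₀ hD₀ hp₀ C hC
  refine ⟨⟨c, hc, h3⟩, fun ε hε => ?_⟩
  set N : ℤ := E.DD * ∏ i, (m i : ℤ) with hN
  have hN0 : N ≠ 0 := mul_ne_zero E.DD0 (prod_ne_zero_iff.2 fun i _ =>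
    Int.natCast_ne_zero.2 (hm.sqf i).ne_zero)
  have key := low_of (J := κ × μ) (ℓ := lawM) lawM_nonneg hasSum_lawM.summable dd
    (fun j => 2 * E.g j.1) C hc h3 h4 {r | Function.curry r ∈ 𝒜} G N.natAbs ?_ ε hε
  · have e : (∑' r : κ × μ → ℕ, if r ∈ {r | Function.curry r ∈ 𝒜} then lawM r else 0) =
        ∑' e : κ → μ → ℕ, if e ∈ 𝒜 then lawV e else 0 := by
      rw [← (Equiv.curry κ μ ℕ).tsum_eq]
      rfl
    rw [e] at key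
    exact key
  · rintro D hCD hb ⟨r, hr, hdd⟩
    rw [hG]
    refine ⟨Function.curry r, hr, fun k i D' t hD' hDD => ?_⟩
    obtain ⟨hD, hc1⟩ := (hC D).1 hCD
    obtain ⟨c1, c2⟩ := h1 D hD hc1.1 k i D' t hD' hDD
    rw [hdd (k, i)] at c2
    obtain ⟨q, hq, hqD, hqN⟩ := prime_part hN0 ((Finset.dvd_prod_of_mem
      (fun i => (m i : ℤ)) (mem_univ i)).mul_left _) hD hD' hDD hb
    exact rk_ex E hD' ⟨q, hq, hqD, fun h => hqN (h.mul_right _)⟩ c1 c2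

theorem outR (H : FactsM) (hm : Mult E m) (hS : ∀ k, E.p k ∉ S) (D₀ : ℤ) (hD₀ : Squarefree D₀)
    (hp₀ : ∀ k, ¬ (E.p k : ℤ) ∣ D₀) (C : ℤ → Prop) (hC : ∀ D, C D ↔ Squarefree D ∧ E.Cond S D₀ D) :
    (∃ c : ℝ, 0 < c ∧
      Tendsto (fun X : ℕ => ({D : ℤ | |D| ≤ X ∧ C D}.ncard : ℝ) / X) atTop (𝓝 c)) ∧
    ∀ 𝒜 : Set (κ → μ → ℕ), ∀ ε : ℝ, 0 < ε → ∀ᶠ X : ℕ in atTop,
      ((∑' e : κ → μ → ℕ, if e ∈ 𝒜 then lawV e else 0) - ε) *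
        ({D : ℤ | |D| ≤ X ∧ C D}.ncard : ℝ) ≤
        ({D : ℤ | (|D| ≤ X ∧ C D) ∧ ∃ e ∈ 𝒜, RankM E m D e}.ncard : ℝ) := by
  have h0 : ∀ 𝒜 : Set (κ → μ → ℕ), ∃ G : ℤ → Prop, ∀ D, G D ↔ ∃ e ∈ 𝒜, RankM E m D e :=
    fun 𝒜 => ⟨_, fun _ => Iff.rfl⟩
  constructor
  · obtain ⟨G, hG⟩ := h0 ∅
    obtain ⟨⟨c, hc, h1⟩, -⟩ := allR E S H hm hS D₀ hD₀ hp₀ C hC ∅ G hG
    refine ⟨c, hc, h1.congr fun X => ?_⟩
    rw [ncard_Icc]
  · intro 𝒜 ε hε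
    obtain ⟨G, hG⟩ := h0 𝒜
    obtain ⟨-, h2⟩ := allR E S H hm hS D₀ hD₀ hp₀ C hC 𝒜 G hG
    filter_upwards [h2 ε hε] with X hX
    rw [ncard_Icc]
    have e : {D : ℤ | (|D| ≤ X ∧ C D) ∧ ∃ e ∈ 𝒜, RankM E m D e} =
        {D : ℤ | |D| ≤ X ∧ (C D ∧ G D)} := by
      ext D
      rw [Set.mem_ofPred_eq, Set.mem_ofPred_eq, hG, and_assoc]
    rw [e]
    rw [ncard_Icc X (fun D => C D ∧ G D) (i := fun D => instDecidableAnd)]
    exact hX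

end Q274.JB
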